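import Pool.Agent.Helper64.Parry.Final

/-!
Powers of the roots of `x^d - x - 1` (MP_596674_nt, Q1).

For every `d ≥ 4` the polynomial `x^d - x - 1` has exactly one real root `β > 1`, and for every
`k ≥ 1` the power `β^k` is not a Parry number.
-/

namespace Pool.Agent.Results.MP_596674_nt.PowersNotParry

open Pool.Agent.Helper64.Parry

theorem exists_unique_root (d : ℕ) (hd : 4 ≤ d) : ∃! β : ℝ, 1 < β ∧ β ^ d - β - 1 = 0 := by
  have hc : ContinuousOn (fun x : ℝ => x ^ d - x - 1) (Set.Icc 1 2) := by fun_prop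
  have h1 : (1 : ℝ) ^ d - 1 - 1 < 0 := by rw [one_pow]; norm_num
  have h2 : (0 : ℝ) ≤ 2 ^ d - 2 - 1 := by
    have : (2 : ℝ) ^ 4 ≤ 2 ^ d := pow_le_pow_right₀ (by norm_num) hd
    norm_num at this
    linarith
  obtain ⟨β, ⟨hβ1, hβ2⟩, hβ⟩ := intermediate_value_Icc (by norm_num : (1 : ℝ) ≤ 2) hc
    ⟨h1.le, h2⟩
  have hβ' : β ^ d - β - 1 = 0 := hβ
  have hβne : 1 < β := by
    rcases hβ1.eq_or_lt with h | h
    · exfalso
      rw [← h] at hβ'
      rw [hβ'] at h1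
      exact lt_irrefl _ h1
    · exact h
  refine ⟨β, ⟨hβne, hβ'⟩, ?_⟩
  rintro x ⟨hx1, hx⟩
  -- for x > 1, x^(d-1) = 1 + 1/x; strictly monotone difference
  obtain ⟨m, rfl⟩ : ∃ m, d = m + 1 := ⟨d - 1, by omega⟩
  have key : ∀ a b : ℝ, 1 < a → a < b → a ^ (m + 1) - a - 1 = 0 → b ^ (m + 1) - b - 1 = 0 →
      False := by
    intro a b ha hab h3 h4
    have h5 : a ^ m < b ^ m := pow_lt_pow_left₀ hab (by linarith) (by omega)
    rw [pow_succ] at h3 h4
    have h6 : 0 < a * b * (b ^ m - a ^ m) :=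
      mul_pos (mul_pos (by linarith) (by linarith)) (by linarith)
    nlinarith
  rcases lt_trichotomy x β with h | h | h
  · exact (key x β hx1 h hx hβ').elim
  · exact h
  · exact (key β x hβne h hβ' hx).elim

/-- Q1 of MP_596674_nt holds: for every `d ≥ 4` the polynomial `x^d - x - 1` has exactly one real
root `β > 1`, and no power `β^k`, `k ≥ 1`, of it is a Parry number. -/
theorem result : ∀ d : ℕ, 4 ≤ d →
    (∃! β : ℝ, 1 < β ∧ β ^ d - β - 1 = 0) ∧
    ∀ β : ℝ, 1 < β → β ^ d - β - 1 = 0 → ∀ k : ℕ, 1 ≤ k → ¬ IsParry (β ^ k) := by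
  intro d hd
  refine ⟨exists_unique_root d hd, ?_⟩
  intro β hβ1 hβ k hk
  exact main hd hβ1 (by linarith) k hk

end Pool.Agent.Results.MP_596674_nt.PowersNotParry
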